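import Pool.Agent.K4H72.Til.Spec

open Set

namespace Pool.Agent.K4H59.TL

open Pool.Agent.K4H72.Til (IsPolygon ShareEdge IsTiling Tile Derivable Adj HasLocEig)

/-- an edge of `K`: the intersection with a supporting line, if it has at least two points -/
def IsEdge (K e : Set ℂ) : Prop :=
  e.Nontrivial ∧ ∃ (φ : ℂ →L[ℝ] ℝ) (c : ℝ), φ ≠ 0 ∧ (∀ x ∈ K, φ x ≤ c) ∧ e = {x | x ∈ K ∧ φ x = c}

/-- two polygons share an edge -/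
def Share (K L : Set ℂ) : Prop := ∃ e, IsEdge K e ∧ IsEdge L e

/-- the translate `t + K` of a set -/
def sh (t : ℂ) (K : Set ℂ) : Set ℂ := (fun z => t + z) '' K

/-- a decomposition of `K` into polygons with a rank function -/
structure GoodDec (K : Set ℂ) (D : Set (Set ℂ)) (ρ : Set ℂ → ℕ) : Prop where
  countable : D.Countable
  poly : ∀ Q ∈ D, IsPolygon Q
  sub : ∀ Q ∈ D, Q ⊆ K
  cover : ∀ x ∈ K, ∃ Q ∈ D, x ∈ Q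
  disj : ∀ Q ∈ D, ∀ Q' ∈ D, Q ≠ Q' → Disjoint (interior Q) (interior Q')
  inner : ∀ Q ∈ D, 1 ≤ ρ Q → Q ⊆ interior K
  next : ∀ Q ∈ D, ∃ W ∈ D, ρ W = ρ Q + 1 ∧ Share Q W ∧
    ∀ Q' ∈ D, Q' ≠ W → Share Q' W → ρ Q' ≤ ρ Q → Q' = Q

/-- the pieces: part of the cone `f₀ ≤ 0`, `h` maximal, level of `h` in `[2^-(j+1), 2^-j]`, centre `O` -/
def pc (H : Finset (ℂ →L[ℝ] ℝ)) (f₀ : ℂ →L[ℝ] ℝ) (O : ℂ) (h : ℂ →L[ℝ] ℝ) (j : ℕ) : Set ℂ :=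
  {x | f₀ (x - O) ≤ 0 ∧ (∀ h' ∈ H, h' (x - O) ≤ h (x - O)) ∧ (1 / 2 : ℝ) ^ (j + 1) ≤ h (x - O) ∧
    h (x - O) ≤ (1 / 2 : ℝ) ^ j}

/-- the functionals `h ∈ H` with a nondegenerate cone -/
def Act (H : Finset (ℂ →L[ℝ] ℝ)) (f₀ h : ℂ →L[ℝ] ℝ) : Prop :=
  h ∈ H ∧ (interior {y : ℂ | f₀ y ≤ 0 ∧ ∀ h' ∈ H, h' y ≤ h y}).Nonempty

/-- `H` describes `K` from the centre `O` -/
structure Rep (K : Set ℂ) (O : ℂ) (H : Finset (ℂ →L[ℝ] ℝ)) : Prop where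
  eq : K = {x | ∀ h ∈ H, h (x - O) ≤ 1}
  pos : ∀ y : ℂ, y ≠ 0 → ∃ h ∈ H, 0 < h y

end Pool.Agent.K4H59.TL
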