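import Pool.Agent.K4H57.TLG1
import Pool.Agent.K4H74.TLG2
import Pool.Agent.K4H57.TLG3
import Pool.Agent.K4H71.TLG4
import Pool.Agent.K4H42.TLG5
import Pool.Agent.K4H96.TLG7
import Pool.Agent.K4H44.TLG8
import Pool.Agent.K4H71.TLG9

open Set

namespace Pool.Agent.K4H59.TL

open Pool.Agent.K4H72.Til (IsPolygon)

theorem centers {K : Set ℂ} (hK : IsPolygon K) :
    ∃ (O₁ O₂ : ℂ) (H₁ H₂ : Finset (ℂ →L[ℝ] ℝ)) (f₀ : ℂ →L[ℝ] ℝ), f₀ ≠ 0 ∧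
    O₁ ∈ interior K ∧ O₂ ∈ interior K ∧ Rep K O₁ H₁ ∧ Rep K O₂ H₂ ∧ f₀ (O₂ - O₁) = 0 ∧ O₁ ≠ O₂ ∧
    (∀ h ∈ H₁, h (O₂ - O₁) ≤ 1 / 2) ∧ ∃ h ∈ H₁, h (O₂ - O₁) = 1 / 2 :=
  centers_of (fun hK hO => rep_exists hK hO) hK

end Pool.Agent.K4H59.TL
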