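import Pool.Agent.K4H59.TL.New
import Pool.Agent.K4H12.TLM0
import Pool.Agent.K4H12.TLM1
import Pool.Agent.K4H13.TLM7
import Pool.Agent.K4H57.TLM3
import Pool.Agent.K4H52.TLM4
import Pool.Agent.K4H72.TLM5
import Pool.Agent.K4H9.TLM6

open Set

namespace Pool.Agent.K4H59.TL

open Pool.Agent.K4H72.Til (IsPolygon ShareEdge IsTiling Tile Derivable Adj HasLocEig)

section
variable {C : Type} {T : Set (Tile C)} (hT : IsTiling T) {rep : Set ℂ → Set ℂ} {t : Set ℂ → ℂ}
  (h1 : ∀ K, K = sh (t K) (rep K)) (h2 : ∀ K s, rep (sh s K) = rep K)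
  {D₀ : Set ℂ → Set (Set ℂ)} {ρ₀ : Set ℂ → Set ℂ → ℕ} (hD : ∀ K, IsPolygon K → GoodDec K (D₀ K) (ρ₀ K))

include hT h1 h2 hD

theorem newT_tiling : IsTiling (newT T rep t D₀) := newT_tiling_of hT h1 hD

theorem newT_der : Derivable T (newT T rep t D₀) := newT_der_aux hT h1 h2 hD

theorem newT_der' : Derivable (newT T rep t D₀) T :=
  newT_der'_of (fun t hK => sh_polygon t hK) (fun hK hc _ _ h => sh_inj hK hc h) hT h1 h2 hD

theorem newT_noLSE : ¬ HasLocEig (newT T rep t D₀) :=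
  M6.newT_noLSE_of (fun t hK => sh_polygon t hK) sh_interior (fun t h => sh_share t h) sh_sh
    (fun hA hB => share_iff hA hB) hT h1 hD

end

end Pool.Agent.K4H59.TL
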