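import Pool.Agent.K4H72.Til.Spec
import Pool.Agent.K4H72.Til.Asm2

/-!
# The case of finite local complexity of MP_885f6d_mp

This is helper72's theorem (it was `Results/MP_885f6d_mp/FiniteLocalComplexity`), here as a helper file.
-/

set_option autoImplicit false

open Set

namespace Pool.Agent.K4H59.TL

open Pool.Agent.K4H72.Til

/-- tilings of finite local complexity (helper72) -/
theorem flc {C : Type} (T : Set (Tile C)) (hT : IsTiling T) (hF : FLC T) :
    ∃ (C' : Type) (T' : Set (Tile C')), IsTiling T' ∧ MLD T T' ∧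
      (∃ e : ℤ × ℤ ≃ T', ∀ u v, Adj (e u) (e v) ↔
        u - v ∈ ({(1, 0), (-1, 0), (0, 1), (0, -1), (1, -1), (-1, 1)} : Set (ℤ × ℤ))) ∧
      (∀ s ∈ T', ∀ t ∈ T', s ≠ t → (s.1 ∩ t.1).Nonempty → ShareEdge s.1 t.1) ∧
      ¬ HasLocEig T' := by
  obtain ⟨P, D, hD, hdense, hfin, hP⟩ := points T hT hF
  obtain ⟨h, g, hg, hloc⟩ := deform P D hD hdense hfin
  have hh := hg.1
  obtain ⟨R, hR⟩ := hloc (3 * h)
  obtain ⟨R', hR', hPR⟩ := hP R
  refine ⟨Set (Tile C) × Set ℂ, Set.range (tl T g h), tiling' T h g hg h,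
    ⟨der1 T h g hg h hh ⟨R', fun x y hxy => ?_⟩, der2 T h g hg h le_rfl⟩,
    ⟨idx T h g hg h, fun u v => ?_⟩, ?_, noEig T h g hg h⟩
  · obtain ⟨τ, hτ⟩ := hR x y (hPR x y hxy)
    exact ⟨τ, fun v hv => hτ v hv⟩
  · rw [adj_iff T h g hg h u v]
    simp only [six, Finset.mem_insert, Finset.mem_singleton, Set.mem_insert_iff, Set.mem_singleton_iff]
  · rintro s ⟨v, rfl⟩ t ⟨w, rfl⟩ hst hne
    have hvw : v ≠ w := fun h => hst (by rw [h])
    have h1 := touch h g hg v w hvw hne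
    have h2 := edge h g hg v (w - v) h1
    rw [add_sub_cancel] at h2
    exact h2

end Pool.Agent.K4H59.TL
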