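import Pool.Agent.K4H59.TL.AllG

open Set

namespace Pool.Agent.K4H59.TL

open Pool.Agent.K4H72.Til (IsPolygon ShareEdge IsTiling Tile Derivable Adj HasLocEig)

theorem share_symm {K L : Set ℂ} (h : Share K L) : Share L K := by
  obtain ⟨e, h1, h2⟩ := h; exact ⟨e, h2, h1⟩

theorem disj_of_sides {f₀ : ℂ →L[ℝ] ℝ} (hf : f₀ ≠ 0) {O : ℂ} {A B : Set ℂ}
    (hA : ∀ x ∈ A, f₀ (x - O) ≤ 0) (hB : ∀ x ∈ B, 0 ≤ f₀ (x - O)) :
    Disjoint (interior A) (interior B) := by
  rw [Set.disjoint_left]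
  intro x hxA hxB
  obtain ⟨v, hv⟩ : ∃ v, f₀ v ≠ 0 := by
    by_contra hcon
    push Not at hcon
    exact hf (ContinuousLinearMap.ext (fun v => by simpa using hcon v))
  have hU : IsOpen (interior A ∩ interior B) := isOpen_interior.inter isOpen_interior
  have hc : Continuous (fun t : ℝ => x + (t : ℂ) * v) := by fun_prop
  have h0 : (0 : ℝ) ∈ (fun t : ℝ => x + (t : ℂ) * v) ⁻¹' (interior A ∩ interior B) := by
    simpa using ⟨hxA, hxB⟩
  obtain ⟨ε, hε, hball⟩ := Metric.isOpen_iff.1 (hU.preimage hc) 0 h0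
  have h1 : (ε / 2 : ℝ) ∈ Metric.ball (0 : ℝ) ε := by
    rw [Metric.mem_ball, Real.dist_eq, sub_zero, abs_of_pos (by linarith)]; linarith
  have h2 := hball h1
  simp only [Set.mem_preimage] at h2
  have hx0 : f₀ (x - O) = 0 := le_antisymm (hA x (interior_subset hxA)) (hB x (interior_subset hxB))
  have hy0 : f₀ (x + ((ε / 2 : ℝ) : ℂ) * v - O) = 0 :=
    le_antisymm (hA _ (interior_subset h2.1)) (hB _ (interior_subset h2.2))
  have e1 : x + ((ε / 2 : ℝ) : ℂ) * v - O = (x - O) + (ε / 2 : ℝ) • v := by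
    rw [Complex.real_smul]; ring
  rw [e1, map_add, map_smul, hx0, zero_add, smul_eq_mul] at hy0
  rcases mul_eq_zero.1 hy0 with h | h
  · linarith
  · exact hv h

theorem exists_dec {K : Set ℂ} (hK : IsPolygon K) :
    ∃ (D : Set (Set ℂ)) (ρ : Set ℂ → ℕ), GoodDec K D ρ := by
  classical
  obtain ⟨O₁, O₂, H₁, H₂, f₀, hf, hO₁, hO₂, R1, R2, h12, hne, hB1, hB2⟩ := centers hK
  have hf' : -f₀ ≠ 0 := neg_ne_zero.2 hf
  set Pz : Bool → (ℂ →L[ℝ] ℝ) → ℕ → Set ℂ :=
    fun s h j => if s = true then pc H₁ f₀ O₁ h j else pc H₂ (-f₀) O₂ h j with hPz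
  set AB : Bool → (ℂ →L[ℝ] ℝ) → Prop :=
    fun s h => if s = true then Act H₁ f₀ h else Act H₂ (-f₀) h with hAB
  have hPt : ∀ h j, Pz true h j = pc H₁ f₀ O₁ h j := fun h j => by simp [hPz]
  have hPf : ∀ h j, Pz false h j = pc H₂ (-f₀) O₂ h j := fun h j => by simp [hPz]
  have hAt : ∀ h, AB true h ↔ Act H₁ f₀ h := fun h => by simp [hAB]
  have hAf : ∀ h, AB false h ↔ Act H₂ (-f₀) h := fun h => by simp [hAB]
  have hfO : ∀ x, f₀ (x - O₂) = f₀ (x - O₁) := by
    intro x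
    have : x - O₂ = (x - O₁) - (O₂ - O₁) := by ring
    rw [this, map_sub, h12, sub_zero]
  have hpoly : ∀ s h j, AB s h → IsPolygon (Pz s h j) := by
    intro s h j hA
    cases s
    · rw [hPf]; exact pc_polygon R2 hK.2.1 hf' ((hAf h).1 hA) j
    · rw [hPt]; exact pc_polygon R1 hK.2.1 hf ((hAt h).1 hA) j
  have hdis : ∀ s h j s' h' j', AB s h → AB s' h' → ¬ (s = s' ∧ h = h' ∧ j = j') →
      Disjoint (interior (Pz s h j)) (interior (Pz s' h' j')) := by
    intro s h j s' h' j' hA hA' hn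
    cases s <;> cases s'
    · rw [hPf, hPf]
      exact pc_disj R2 ((hAf h).1 hA) ((hAf h').1 hA') (fun hh => hn ⟨rfl, hh.1, hh.2⟩)
    · rw [hPf, hPt]
      refine (disj_of_sides hf (O := O₁) (fun x hx => hx.1) (fun x hx => ?_)).symm
      have := hx.1
      rw [neg_apply, hfO] at this
      linarith
    · rw [hPf, hPt]
      refine (disj_of_sides hf (O := O₁) (fun x hx => hx.1) (fun x hx => ?_))
      have := hx.1
      rw [neg_apply, hfO] at this
      linarith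
    · rw [hPt, hPt]
      exact pc_disj R1 ((hAt h).1 hA) ((hAt h').1 hA') (fun hh => hn ⟨rfl, hh.1, hh.2⟩)
  have hinj : ∀ s h j s' h' j', AB s h → AB s' h' → Pz s h j = Pz s' h' j' →
      s = s' ∧ h = h' ∧ j = j' := by
    intro s h j s' h' j' hA hA' he
    by_contra hn
    have h1 := hdis s h j s' h' j' hA hA' hn
    rw [← he, disjoint_self] at h1
    obtain ⟨⟨x, hx⟩, -, hcl, -⟩ := hpoly s h j hA
    have := hcl hx
    rw [h1] at this
    simp at this
  set D : Set (Set ℂ) := {Q | ∃ s h j, AB s h ∧ Q = Pz s h j} with hD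
  set ρ : Set ℂ → ℕ := fun Q => if hQ : ∃ j s h, AB s h ∧ Q = Pz s h j then hQ.choose else 0 with hρ
  have hρP : ∀ s h j, AB s h → ρ (Pz s h j) = j := by
    intro s h j hA
    have hex : ∃ j' s' h', AB s' h' ∧ Pz s h j = Pz s' h' j' := ⟨j, s, h, hA, rfl⟩
    have : ρ (Pz s h j) = hex.choose := by
      simp only [hρ]; rw [dif_pos hex]
    rw [this]
    obtain ⟨s', h', hA', he⟩ := hex.choose_spec
    exact ((hinj s h j s' h' _ hA hA' he).2.2).symm
  refine ⟨D, ρ, ?_, ?_, ?_, ?_, ?_, ?_, ?_⟩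
  · have : D ⊆ (⋃ h ∈ (H₁ : Set (ℂ →L[ℝ] ℝ)), Set.range (fun j => pc H₁ f₀ O₁ h j)) ∪
        (⋃ h ∈ (H₂ : Set (ℂ →L[ℝ] ℝ)), Set.range (fun j => pc H₂ (-f₀) O₂ h j)) := by
      rintro Q ⟨s, h, j, hA, rfl⟩
      cases s
      · right
        rw [hPf]
        exact Set.mem_biUnion (((hAf h).1 hA).1) ⟨j, rfl⟩
      · left
        rw [hPt]
        exact Set.mem_biUnion (((hAt h).1 hA).1) ⟨j, rfl⟩
    refine Set.Countable.mono this (Set.Countable.union ?_ ?_)
    · exact (H₁.countable_toSet).biUnion (fun h _ => Set.countable_range _)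
    · exact (H₂.countable_toSet).biUnion (fun h _ => Set.countable_range _)
  · rintro Q ⟨s, h, j, hA, rfl⟩
    exact hpoly s h j hA
  · rintro Q ⟨s, h, j, hA, rfl⟩
    cases s
    · rw [hPf]; exact pc_sub R2
    · rw [hPt]; exact pc_sub R1
  · intro x hx
    by_cases hx1 : x = O₁
    · obtain ⟨h, j, hA, hxp⟩ := pc_cover R2 hf' hx (by
        rw [neg_apply, hfO, hx1, sub_self, map_zero, neg_zero]) (by
          rw [hx1]; exact hne)
      exact ⟨Pz false h j, ⟨false, h, j, (hAf h).2 hA, rfl⟩, by rw [hPf]; exact hxp⟩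
    · by_cases hs : f₀ (x - O₁) ≤ 0
      · obtain ⟨h, j, hA, hxp⟩ := pc_cover R1 hf hx hs hx1
        exact ⟨Pz true h j, ⟨true, h, j, (hAt h).2 hA, rfl⟩, by rw [hPt]; exact hxp⟩
      · obtain ⟨h, j, hA, hxp⟩ := pc_cover R2 hf' hx (by
          rw [neg_apply, hfO]; linarith) (by
            rintro rfl
            exact hs (by rw [h12]))
        exact ⟨Pz false h j, ⟨false, h, j, (hAf h).2 hA, rfl⟩, by rw [hPf]; exact hxp⟩
  · rintro Q ⟨s, h, j, hA, rfl⟩ Q' ⟨s', h', j', hA', rfl⟩ hn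
    refine hdis s h j s' h' j' hA hA' ?_
    rintro ⟨rfl, rfl, rfl⟩
    exact hn rfl
  · rintro Q ⟨s, h, j, hA, rfl⟩ hr
    rw [hρP s h j hA] at hr
    cases s
    · rw [hPf]; exact pc_inner R2 hr
    · rw [hPt]; exact pc_inner R1 hr
  · rintro Q ⟨s, h, j, hA, rfl⟩
    refine ⟨Pz s h (j + 1), ⟨s, h, j + 1, hA, rfl⟩, ?_, ?_, ?_⟩
    · rw [hρP s h _ hA, hρP s h _ hA]
    · cases s
      · rw [hPf, hPf]; exact pc_share_next R2 hf' ((hAf h).1 hA) j
      · rw [hPt, hPt]; exact pc_share_next R1 hf ((hAt h).1 hA) j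
    · rintro Q' ⟨s', h', j', hA', rfl⟩ hne' hsh hr
      rw [hρP s' h' _ hA', hρP s h _ hA] at hr
      cases s <;> cases s'
      · rw [hPf, hPf] at hsh
        rcases pc_share_rank R2 ((hAf h).1 hA) ((hAf h').1 hA') hsh with ⟨rfl, rfl⟩ | h4
        · rfl
        · omega
      · rw [hPt, hPf] at hsh
        exact absurd hsh (pc_no_share hf R1 R2 h12 hne hB1 hB2 ((hAt h').1 hA') ((hAf h).1 hA))
      · rw [hPt, hPf] at hsh
        exact absurd (share_symm hsh) (pc_no_share hf R1 R2 h12 hne hB1 hB2 ((hAt h).1 hA) ((hAf h').1 hA'))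
      · rw [hPt, hPt] at hsh
        rcases pc_share_rank R1 ((hAt h).1 hA) ((hAt h').1 hA') hsh with ⟨rfl, rfl⟩ | h4
        · rfl
        · omega

end Pool.Agent.K4H59.TL
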