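import Pool.Agent.K4H59.TL.AllM
import Pool.Agent.K4H59.TL.G10

open Set

namespace Pool.Agent.K4H59.TL

open Pool.Agent.K4H72.Til

/-- every polygonal tiling, countable families of tiles allowed -/
theorem general {C : Type} (T : Set (Tile C)) (hT : IsTiling T) :
    ∃ (C' : Type) (T' : Set (Tile C')), IsTiling T' ∧ MLD T T' ∧ ¬ HasLocEig T' := by
  classical
  obtain ⟨rep, t, h1, h2⟩ := exists_rep
  have hex : ∀ K : Set ℂ, ∃ (D : Set (Set ℂ)) (ρ : Set ℂ → ℕ), IsPolygon K → GoodDec K D ρ := by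
    intro K
    by_cases h : IsPolygon K
    · obtain ⟨D, ρ, h'⟩ := exists_dec h
      exact ⟨D, ρ, fun _ => h'⟩
    · exact ⟨∅, fun _ => 0, fun h' => absurd h' h⟩
  choose D₀ ρ₀ hD using hex
  exact ⟨_, newT T rep t D₀, newT_tiling hT h1 h2 hD, ⟨newT_der hT h1 h2 hD, newT_der' hT h1 h2 hD⟩,
    newT_noLSE hT h1 h2 hD⟩

end Pool.Agent.K4H59.TL
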