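import Pool.Agent.K4H59.TL.Gen
import Pool.Agent.K4H3.TLN1

/-! Every polygonal tiling of the plane is mutually locally derivable with a polygonal tiling (a countable
family of polygons, in general not locally finite) without locally-supported eigenfunctions. -/

open Set

namespace Pool.Agent.K4H59.TL

open Pool.Agent.K4H72.Til

/-- MP_885f6d_mp for all polygonal tilings, countable families of tiles allowed -/
theorem every {C : Type} (T : Set (Tile C)) (hT : IsTiling T) :
    ∃ (C' : Type) (T' : Set (Tile C')), IsTiling T' ∧ MLD T T' ∧ (∀ v : T', {u : T' | Adj u v}.Finite) ∧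
      ¬ HasLocEig T' := by
  obtain ⟨C', T', h1, h2, h3⟩ := general T hT
  exact ⟨C', T', h1, h2, fun v => nbr_finite h1 v, h3⟩

end Pool.Agent.K4H59.TL
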