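import Pool.Agent.K4H59.TL.Spec

open Set

namespace Pool.Agent.K4H59.TL

open Pool.Agent.K4H72.Til (IsPolygon ShareEdge IsTiling Tile Derivable Adj HasLocEig)

/-- the new tiling: every tile `(K, c)`, `K = sh (t K) (rep K)`, is cut into the translates of the pieces of the
representative `rep K`; the colour of a piece remembers `c`, `rep K` and the piece of `rep K` -/
def newT {C : Type} (T : Set (Tile C)) (rep : Set ℂ → Set ℂ) (t : Set ℂ → ℂ)
    (D₀ : Set ℂ → Set (Set ℂ)) : Set (Tile (C × Set ℂ × Set ℂ)) :=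
  {q | ∃ s ∈ T, ∃ Q₀ ∈ D₀ (rep s.1), q = (sh (t s.1) Q₀, (s.2, rep s.1, Q₀))}

end Pool.Agent.K4H59.TL
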